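import Pool.Agent.helper47.MSW.SpecA
import Pool.Agent.helper47.MSW.SpecC

set_option autoImplicit false

namespace Pool.Agent.MSW

open Equiv Finset Function MeasureTheory Pool.Agent.helper48.PP
open Pool.Agent.DSW (Pr Has GP wt)
open scoped ENNReal Classical

noncomputable section

theorem ZLO (hSQS : SQS_stmt) (hQSM : QSM_stmt) (hHLA : HLA_stmt) (hTRL : TRL_stmt)
    (hFLT : FLT_stmt) (hLOB : LOB_stmt) : ZLO_stmt := by
  intro M hM
  obtain ⟨θ₀, h0, h1, hS⟩ := hSQS M hM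
  refine ⟨θ₀, h0, h1, ?_⟩
  intro θ H X B Y hθ hθ0 hMH hB1 hBH hX hY
  have hSQ := hS θ H X Y hθ hθ0 hMH hX hY
  have hH1 : 1 ≤ H := hM.trans hMH
  have hHr : (1 : ℝ) ≤ (H : ℝ) := by exact_mod_cast hH1
  have hθ1 : θ ≤ 1 := hθ0.trans h1
  have hd0 : 0 ≤ den θ H := by unfold den; positivity
  have hd1 : den θ H ≤ 1 := by
    unfold den
    rw [div_le_one (by positivity)]
    nlinarith
  set c : ℝ := (θ / (8 * (tl B : ℝ) ^ 2)) ^ tl B with hc
  have hc0 : 0 ≤ c := by rw [hc]; positivity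
  have hbox : ∀ p q : Pt, p ≤ q → Jb H (q - p) →
      ENNReal.ofReal c ≤ Pm (den θ H) {ω | HL B ω p q} := by
    intro p q hpq hJ
    have e1 : p + (q - p) = q := by
      apply Prod.ext
      · show p.1 + (q.1 - p.1) = q.1
        have := hpq.1
        omega
      · show p.2 + (q.2 - p.2) = q.2
        have := hpq.2
        omega
    have e2 := hTRL.2 B (den θ H) p (q - p) hd0 hd1
    rw [e1] at e2
    rw [e2]
    have hflat := hFLT.2 B
    have e3 := hLOB (flat B).1 (flat B).2 H θ (by rw [hflat]; exact hB1) (by rw [hflat]; exact hBH)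
      hθ hθ1
    have e4 : (θ / (8 * ((flat B).1 : ℝ) ^ 2)) ^ (flat B).1 = c := by rw [hflat, hc]
    rw [e4] at e3
    refine e3.trans (measure_mono ?_)
    intro ω hω
    have hω' : HL B ω 0 (H, H) := (hFLT.1 B ω 0 (H, H)).2 hω
    exact hHLA.2.2.1 B ω 0 0 (H, H) (q - p) le_rfl ⟨hJ.1.1, hJ.2.1⟩ hω'
  have hw : ∀ w : Pt, ENNReal.ofReal c * (∑' pq : Pt × Pt,
      if pq.1 ≤ pq.2 ∧ Jb H (pq.2 - pq.1) then Pm (den θ H) {ω | Qe X Y ω w pq.1 pq.2} else 0) ≤
      Pm (den θ H) {ω | HL (X ++ B ++ Y) ω 0 w} := by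
    intro w
    obtain ⟨q1, q2, -, -⟩ := hQSM (den θ H) X Y w hd0 hd1
    refine le_trans ?_ (q1 B)
    rw [← ENNReal.tsum_mul_left]
    refine ENNReal.tsum_le_tsum fun pq => ?_
    by_cases hJ : pq.1 ≤ pq.2 ∧ Jb H (pq.2 - pq.1)
    · rw [if_pos hJ, q2 B pq.1 pq.2, mul_comm]
      exact mul_le_mul' le_rfl (hbox pq.1 pq.2 hJ.1 hJ.2)
    · rw [if_neg hJ, mul_zero]
      exact zero_le
  calc ENNReal.ofReal (1 / 648 * c) * (A1 H (den θ H) X * A1 H (den θ H) Y.reverse)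
      = ENNReal.ofReal c * (ENNReal.ofReal (1 / 648) *
          (A1 H (den θ H) X * A1 H (den θ H) Y.reverse)) := by
        rw [ENNReal.ofReal_mul (by norm_num)]
        ring
    _ ≤ ENNReal.ofReal c * SQ H (den θ H) X Y := mul_le_mul' le_rfl hSQ
    _ ≤ Z H (den θ H) (X ++ B ++ Y) := by
        unfold SQ Z
        rw [← ENNReal.tsum_mul_left]
        refine ENNReal.tsum_le_tsum fun w => ?_
        calc ENNReal.ofReal c * (wt H w.1 * wt H w.2 * ∑' pq : Pt × Pt,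
              if pq.1 ≤ pq.2 ∧ Jb H (pq.2 - pq.1) then
                Pm (den θ H) {ω | Qe X Y ω w pq.1 pq.2} else 0)
            = wt H w.1 * wt H w.2 * (ENNReal.ofReal c * ∑' pq : Pt × Pt,
              if pq.1 ≤ pq.2 ∧ Jb H (pq.2 - pq.1) then
                Pm (den θ H) {ω | Qe X Y ω w pq.1 pq.2} else 0) := by ring
          _ ≤ _ := mul_le_mul' le_rfl (hw w)

end

end Pool.Agent.MSW
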